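import Pool.Agent.H89.ProP.Main

/-!
# Locally nilpotent subvarieties of varieties of pro-`p` groups

Let `V` be a variety of pro-`p` groups which is not nilpotent.  We prove that `V` has a locally
nilpotent subvariety which is not nilpotent, unless `V` contains an infinite topologically finitely
generated group of finite exponent.  (By Zelmanov's solution of the restricted Burnside problem
there is no such group; this theorem is not assumed here.)

Proof sketch.  Let `EEV p V` be the subvariety of the groups in `V` which are extensions of an
elementary abelian group by an elementary abelian group; its finitely generated members are finite.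
If it is not nilpotent it is the wanted subvariety.  Otherwise the classes of its members are
bounded, by `c` say.

* (`A1core`, `cj_pow`)  For every finite group `G` in `V`, every abelian normal subgroup `N` and
  every `g` in `G`, the operator `g - 1` on `N` has `c`-th power zero.  For commuting `t_1, ..., t_c`
  let `E` be the submodule of `N` generated by all `(t_1 - 1) ... (t_c - 1) w`, over the group ring
  `R` of an abelian subgroup `T`, and let `J` be the ideal of `R` generated by `p` and all `t - 1`.
  A suitable section of a power of `N ⋊ T` is elementary abelian by elementary abelian, and its
  class being at most `c` gives `E = J E`; as `J` acts nilpotently on `N`, `E = 0`.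
* (`span_closure`)  Let `G` in `V` be finitely generated and `q = p ^ k ≥ c`.  If finitely
  generated groups of exponent dividing `q` in `V` are finite, the closed subgroup `H` generated by
  the `q`-th powers has finite index.  In the ring of operators generated by `G` on an abelian normal
  section as above, `g ^ q` is `1` modulo `p`, so that the finitely many representatives of `G / H`
  span this ring as an additive group.
* (`family`, `unip_padic`)  So for any sequence of such sections the ring generated by `G` on their
  product, over the `p`-adic integers, is a finitely generated module.  A trace argument over the
  `p`-adic numbers (all `g - 1` are nilpotent) and an argument modulo `p` show that some power of the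
  augmentation ideal vanishes.  So some `f` satisfies `[N, G, ..., G] = 1` (`f` times) for all open
  normal subgroups `O` and a maximal abelian normal subgroup `N` of `G / O`.
* (`class_bound`)  As `N` is its own centraliser, `G / O` has class at most `2 f`.  So `G` is
  nilpotent: `V` is locally nilpotent.
-/

namespace Pool.Agent.Results.MP_36c61b_al.BurnsideDichotomy

open H89.ProP

/-- Let `p` be a prime and `V` a variety of pro-`p` groups which is not nilpotent.  Then `V` has a
subvariety `U` which is locally nilpotent and not nilpotent, namely `U = V` or the class `U` of the
groups in `V` which are (elementary abelian)-by-(elementary abelian), unless there is a least `k`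
such that the groups of the latter class are nilpotent of class at most `p ^ k`, and `V` contains
an infinite, topologically finitely generated group of exponent dividing `p ^ k`. -/
theorem result (p : ℕ) (hp : p.Prime) (V : GroupClass) (hV : IsVariety V) (hVp : IsProP p V)
    (hn : ¬ Nilp V) :
    (∃ U : GroupClass, (U = V ∨ U = EEV p V) ∧ IsVariety U ∧
      (∀ (G : Type) [Group G] [TopologicalSpace G], U G → V G) ∧ LocNilp U ∧ ¬ Nilp U) ∨
    (∃ k : ℕ, IsLeast {k : ℕ | ∀ (G : Type) [Group G] [TopologicalSpace G], EEV p V G →
        (⊤ : Subgroup G).lowerCentralSeries (p ^ k) = ⊥} k ∧
      ∃ (G : Type) (_ : Group G) (_ : TopologicalSpace G), V G ∧ TopFG G ∧ Infinite G ∧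
        ∀ x : G, x ^ (p ^ k) = 1) := by
  rcases trichotomy hp hV hVp with h | h | h
  · exact Or.inl ⟨EEV p V, Or.inr rfl, isVariety_EEV hV, fun G _ _ hG => hG.1,
      locNilp_EEV hp hV hVp, h⟩
  · exact Or.inl ⟨V, Or.inl rfl, hV, fun G _ _ hG => hG, h, hn⟩
  · exact Or.inr h

end Pool.Agent.Results.MP_36c61b_al.BurnsideDichotomy
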